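import Pool.Agent.helper90.MinRamsey.Final

set_option autoImplicit false

namespace Pool.Agent.MinRamsey

open SimpleGraph Finset

/-- two cliques on `{v < a}` and `{v ≥ a}` -/
def twoCliques (N a : ℕ) : SimpleGraph (Fin N) where
  Adj u v := u ≠ v ∧ (u.val < a ↔ v.val < a)
  symm := ⟨fun _ _ h => ⟨h.1.symm, h.2.symm⟩⟩
  loopless := ⟨fun _ h => h.1 rfl⟩

lemma preimage_card {n N : ℕ} (φ : Fin n → Fin N) (hφ : Function.Injective φ) (a : ℕ)
    (ha : a ≤ N) :
    (univ.filter (fun v : Fin n => (φ v).val < a)).card ≤ a ∧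
    a ≤ (univ.filter (fun v : Fin n => (φ v).val < a)).card + (N - n) := by
  classical
  have h1 : (univ.filter (fun v : Fin n => (φ v).val < a)).card ≤ a := by
    have h2 : ((univ.filter (fun v : Fin n => (φ v).val < a)).image (fun v => (φ v).val)).card ≤
        (range a).card := by
      apply card_le_card
      intro x hx
      rw [mem_image] at hx
      obtain ⟨v, hv, rfl⟩ := hx
      rw [mem_filter] at hv
      exact mem_range.2 hv.2
    rw [card_image_of_injective _ (fun x y h => hφ (Fin.ext h)), card_range] at h2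
    exact h2
  refine ⟨h1, ?_⟩
  have h3 : (univ.filter (fun v : Fin n => ¬ (φ v).val < a)).card ≤ N - a := by
    have h2 : ((univ.filter (fun v : Fin n => ¬ (φ v).val < a)).image
        (fun v => (φ v).val)).card ≤ (Ico a N).card := by
      apply card_le_card
      intro x hx
      rw [mem_image] at hx
      obtain ⟨v, hv, rfl⟩ := hx
      rw [mem_filter] at hv
      rw [mem_Ico]
      exact ⟨not_lt.1 hv.2, (φ v).isLt⟩
    rw [card_image_of_injective _ (fun x y h => hφ (Fin.ext h)), Nat.card_Ico] at h2
    exact h2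
  have h4 : (univ.filter (fun v : Fin n => (φ v).val < a)).card +
      (univ.filter (fun v : Fin n => ¬ (φ v).val < a)).card = n := by
    rw [Finset.card_filter_add_card_filter_not]
    simp
  omega

/-- **Counting over the two-clique colourings.** -/
theorem card_bound {n N : ℕ} (G : SimpleGraph (Fin n)) (h : Arrows G N) (D : Finset (Fin n))
    (hD : ∀ v, v ∉ D → ∃ d ∈ D, G.Adj d v) :
    N + 1 ≤ 2 ^ D.card * (2 * (N - n + 1)) := by
  classical
  -- the centre of a vertex
  let c : Fin n → Fin n := fun v => if hv : v ∈ D then v else (hD v hv).choose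
  have hc1 : ∀ v, v ∈ D → c v = v := fun v hv => dif_pos hv
  have hc2 : ∀ v, v ∉ D → c v ∈ D ∧ G.Adj (c v) v := by
    intro v hv
    have e : c v = (hD v hv).choose := dif_neg hv
    rw [e]
    exact (hD v hv).choose_spec
  let P : Finset (Fin n) → Finset (Fin n) := fun J => univ.filter (fun v => c v ∈ J)
  let Q : Finset (Fin n) → Finset (Fin n) := fun J => univ.filter (fun v =>
    if v ∈ D then v ∈ J else c v ∉ J)
  have hcover : range (N + 1) ⊆ D.powerset.biUnion (fun J =>
      Icc (P J).card ((P J).card + (N - n)) ∪ Icc (Q J).card ((Q J).card + (N - n))) := by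
    intro a ha
    rw [mem_range] at ha
    rw [mem_biUnion]
    rcases h (twoCliques N a) with h | h
    · obtain ⟨φ⟩ := h
      refine ⟨D.filter (fun d => (φ d).val < a), by
        rw [mem_powerset]; exact filter_subset _ _, ?_⟩
      have e : P (D.filter (fun d => (φ d).val < a)) =
          univ.filter (fun v : Fin n => (φ v).val < a) := by
        ext v
        simp only [P, mem_filter, mem_univ, true_and]
        by_cases hv : v ∈ D
        · rw [hc1 v hv]
          exact ⟨fun h => h.2, fun h => ⟨hv, h⟩⟩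
        · have h1 := (φ.toHom.map_adj (hc2 v hv).2).2
          have h2 : (φ (c v)).val < a ↔ (φ v).val < a := h1
          rw [← h2]
          exact ⟨fun h => h.2, fun h => ⟨(hc2 v hv).1, h⟩⟩
      rw [mem_union, mem_Icc, e]
      left
      exact preimage_card φ φ.injective a (by omega)
    · obtain ⟨φ⟩ := h
      refine ⟨D.filter (fun d => (φ d).val < a), by
        rw [mem_powerset]; exact filter_subset _ _, ?_⟩
      have e : Q (D.filter (fun d => (φ d).val < a)) =
          univ.filter (fun v : Fin n => (φ v).val < a) := by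
        ext v
        simp only [Q, mem_filter, mem_univ, true_and]
        by_cases hv : v ∈ D
        · rw [if_pos hv]
          exact ⟨fun h => h.2, fun h => ⟨hv, h⟩⟩
        · rw [if_neg hv]
          have h1 := φ.toHom.map_adj (hc2 v hv).2
          rw [SimpleGraph.compl_adj] at h1
          have h2 : ¬ ((φ (c v)).val < a ↔ (φ v).val < a) := fun h3 => h1.2 ⟨h1.1, h3⟩
          have h3 := (hc2 v hv).1
          constructor
          · intro h4
            by_contra h5
            exact h4 ⟨h3, by
              by_contra h6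
              exact h2 ⟨fun h => absurd h h6, fun h => absurd h h5⟩⟩
          · rintro h4 ⟨_, h5⟩
            exact h2 ⟨fun _ => h4, fun _ => h5⟩
      rw [mem_union, mem_Icc, mem_Icc, e]
      right
      exact preimage_card φ φ.injective a (by omega)
  have h1 := (card_le_card hcover).trans card_biUnion_le
  rw [card_range] at h1
  refine h1.trans ?_
  have h2 : ∀ J ∈ D.powerset, (Icc (P J).card ((P J).card + (N - n)) ∪
      Icc (Q J).card ((Q J).card + (N - n))).card ≤ 2 * (N - n + 1) := by
    intro J _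
    refine (card_union_le _ _).trans ?_
    rw [Nat.card_Icc, Nat.card_Icc]
    omega
  refine (sum_le_card_nsmul _ _ _ h2).trans ?_
  rw [card_powerset, smul_eq_mul]

/-- the Ramsey number of a graph with `n` vertices is at least `n` -/
lemma le_of_arrows {n N : ℕ} (G : SimpleGraph (Fin n)) (h : Arrows G N) : n ≤ N := by
  rcases h ⊤ with h | h
  · obtain ⟨φ⟩ := h
    simpa using Fintype.card_le_of_injective _ φ.injective
  · obtain ⟨φ⟩ := h
    simpa using Fintype.card_le_of_injective _ φ.injective

/-- core form of the new lower bound: `f(n) = n + k - 1` with `n + k ≤ 2 ^ (k + 1) * k` -/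
theorem minRamsey_core_lower (n : ℕ) (hn : 2 ≤ n) :
    ∃ k : ℕ, 1 ≤ k ∧ minRamsey n = n - 1 + k ∧ n + k ≤ 2 ^ (k + 1) * k := by
  classical
  have hne : {r | ∃ G : SimpleGraph (Fin n), (∀ v, ∃ w, G.Adj v w) ∧
      ramseyNumber G = r}.Nonempty := by
    refine ⟨_, ⊤, ?_, rfl⟩
    intro v
    have : Nontrivial (Fin n) := Fin.nontrivial_iff_two_le.mpr hn
    obtain ⟨w, hw⟩ := exists_ne v
    exact ⟨w, by simpa using hw.symm⟩
  obtain ⟨G, hG, hGr⟩ := Nat.sInf_mem hne
  change ramseyNumber G = minRamsey n at hGr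
  have harr : Arrows G (minRamsey n) := by
    rw [← hGr]
    exact Nat.sInf_mem (exists_arrows G)
  have hle := le_of_arrows G harr
  obtain ⟨k, hk⟩ : ∃ k, minRamsey n = n - 1 + k := ⟨minRamsey n - (n - 1), by omega⟩
  rw [hk] at harr
  refine ⟨k, by omega, hk, ?_⟩
  by_cases hdom : ∃ D : Finset (Fin n), D.card ≤ k ∧ ∀ v, v ∉ D → ∃ d ∈ D, G.Adj d v
  · obtain ⟨D, hD, hD'⟩ := hdom
    have h1 := card_bound G harr D hD'
    have h2 : 2 ^ D.card ≤ 2 ^ k := Nat.pow_le_pow_right (by norm_num) hD
    have e1 : n - 1 + k - n + 1 = k := by omega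
    have e2 : n - 1 + k + 1 = n + k := by omega
    rw [e1, e2] at h1
    calc n + k ≤ 2 ^ D.card * (2 * k) := h1
      _ ≤ 2 ^ k * (2 * k) := Nat.mul_le_mul_right _ h2
      _ = 2 ^ (k + 1) * k := by ring
  · push Not at hdom
    exact absurd harr (not_arrows_of_no_dom (γ := k) (by omega) G hG hdom)

/-- the new lower bound with real logarithms -/
theorem lower_real' (n : ℕ) (hn : 2 ≤ n) :
    (n : ℝ) + Real.logb 2 n - Real.logb 2 (Real.logb 2 n) - 2 ≤ minRamsey n := by
  obtain ⟨k, hk1, hk2, hk3⟩ := minRamsey_core_lower n hn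
  have e : (minRamsey n : ℝ) = n - 1 + k := by
    rw [hk2]
    have : ((n - 1 : ℕ) : ℝ) = (n : ℝ) - 1 := by
      rw [Nat.cast_sub (by omega)]
      simp
    push_cast
    rw [this]
  rw [e]
  by_contra hcon
  push Not at hcon
  have hlog1 : 1 ≤ Real.logb 2 n := by
    rw [Real.le_logb_iff_rpow_le (by norm_num) (by exact_mod_cast (by omega : 0 < n))]
    simpa using (by exact_mod_cast hn : (2 : ℝ) ≤ n)
  have hll : 0 ≤ Real.logb 2 (Real.logb 2 n) := Real.logb_nonneg (by norm_num) hlog1
  have hkpos : (0 : ℝ) < k := by exact_mod_cast hk1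
  have h1 : (k : ℝ) < Real.logb 2 n := by linarith
  have h2 : Real.logb 2 k ≤ Real.logb 2 (Real.logb 2 n) :=
    Real.logb_le_logb_of_le (by norm_num) hkpos h1.le
  have h3 : Real.logb 2 n ≤ (k + 1) + Real.logb 2 k := by
    have h4 : (n : ℝ) ≤ (2 : ℝ) ^ (k + 1) * k := by
      have : n ≤ 2 ^ (k + 1) * k := by omega
      exact_mod_cast this
    have h5 : Real.logb 2 ((2 : ℝ) ^ (k + 1) * k) = (k + 1) + Real.logb 2 k := by
      rw [Real.logb_mul (by positivity) hkpos.ne', Real.logb_pow, Real.logb_self_eq_one (by norm_num)]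
      push_cast
      ring
    rw [← h5]
    exact Real.logb_le_logb_of_le (by norm_num) (by exact_mod_cast (by omega : 0 < n)) h4
  linarith

end Pool.Agent.MinRamsey
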